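import Pool.Agent.W398.SG.StmC

/-!
SG-C-QQ: the tree group defined by coordinates.
-/

set_option autoImplicit false

namespace Pool.Agent.W154.SG.QQ

open Pool.Agent.W37.SG Pool.Agent.W398.SG.C

section

variable {p k : ℕ} {P : Type} [Group P] {H : Subgroup P}

/-- the action on sequences -/
noncomputable def pf (e : P ⧸ H ≃ (Fin k → ZMod p)) (g : P) (x : ℕ → ZMod p) : ℕ → ZMod p :=
  fun i => if h : i < k then e (g • e.symm (fun j : Fin k => x j)) ⟨i, h⟩ else x i

theorem pf_restr (e : P ⧸ H ≃ (Fin k → ZMod p)) (g : P) (x : ℕ → ZMod p) :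
    (fun j : Fin k => pf e g x j) = e (g • e.symm (fun j : Fin k => x j)) := by
  funext j
  simp [pf, j.2]

theorem pf_mul (e : P ⧸ H ≃ (Fin k → ZMod p)) (g g' : P) (x : ℕ → ZMod p) :
    pf e (g * g') x = pf e g (pf e g' x) := by
  funext i
  by_cases h : i < k
  · have e1 : pf e g (pf e g' x) i =
        e (g • e.symm (fun j : Fin k => pf e g' x j)) ⟨i, h⟩ := by
      rw [pf, dif_pos h]
    rw [e1, pf_restr, Equiv.symm_apply_apply, smul_smul, pf, dif_pos h]
  · have e1 : pf e g (pf e g' x) i = pf e g' x i := by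
      rw [pf, dif_neg h]
    rw [e1, pf, dif_neg h, pf, dif_neg h]

theorem pf_one (e : P ⧸ H ≃ (Fin k → ZMod p)) (x : ℕ → ZMod p) : pf e 1 x = x := by
  funext i
  by_cases h : i < k
  · rw [pf, dif_pos h, one_smul, Equiv.apply_symm_apply]
  · rw [pf, dif_neg h]

/-- the homomorphism -/
noncomputable def ph (e : P ⧸ H ≃ (Fin k → ZMod p)) : P →* Equiv.Perm (ℕ → ZMod p) where
  toFun g :=
    { toFun := pf e g
      invFun := pf e g⁻¹
      left_inv := fun x => by rw [← pf_mul, inv_mul_cancel, pf_one]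
      right_inv := fun x => by rw [← pf_mul, mul_inv_cancel, pf_one] }
  map_one' := by
    ext1 x
    exact pf_one e x
  map_mul' g g' := by
    ext1 x
    exact pf_mul e g g' x

end

theorem main : S_QQ := by
  intro p _ P _ H k e he
  refine ⟨ph e, fun g => ⟨?_, ?_⟩, ?_⟩
  · intro i x y hxy
    show pf e g x i - x i = pf e g y i - y i
    by_cases h : i < k
    · have := he g ⟨i, h⟩ (e.symm (fun j : Fin k => x j)) (e.symm (fun j : Fin k => y j)) (by
        intro j hj
        rw [Equiv.apply_symm_apply, Equiv.apply_symm_apply]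
        exact hxy j hj)
      rw [Equiv.apply_symm_apply, Equiv.apply_symm_apply] at this
      rw [pf, dif_pos h, pf, dif_pos h]
      exact this
    · rw [pf, dif_neg h, pf, dif_neg h, sub_self, sub_self]
  · intro x i hi
    show pf e g x i = x i
    rw [pf, dif_neg (not_lt.2 hi)]
  · intro g x i
    show pf e g x i = _
    rw [pf, dif_pos i.2]

end Pool.Agent.W154.SG.QQ
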